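import Pool.Agent.W622.ETG.Lin

set_option autoImplicit false

/-! Part B1R of the project ELG. -/

namespace Pool.Agent.W816.ELG

open Pool.Agent.W622.ETG Module

section
variable {V : Type} [AddCommGroup V] [Module (ZMod 2) V] {e : V}

theorem sum_sqf_apply (I : Finset (Dl V)) (v : V) : (∑ s ∈ I, sqf s) v = ∑ s ∈ I, s v • s := by
  rw [LinearMap.sum_apply]
  rfl

/-- splitting a relation whose squares also add up to zero -/
theorem split (I : Finset (Dl V)) (hne : I.Nonempty) (h0 : ∀ s ∈ I, s ≠ 0) (hs : ∑ s ∈ I, s = 0)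
    (hq : ∑ s ∈ I, sqf s = 0) : ∃ J : Finset (Dl V), J ⊂ I ∧ J.Nonempty ∧ ∑ s ∈ J, s = 0 := by
  classical
  obtain ⟨s, hsI⟩ := hne
  obtain ⟨s', hs'I, hss'⟩ : ∃ s' ∈ I, s' ≠ s := by
    by_contra hc
    push Not at hc
    have h1 : I = {s} := Finset.eq_singleton_iff_unique_mem.2 ⟨hsI, hc⟩
    rw [h1, Finset.sum_singleton] at hs
    exact h0 s hsI hs
  obtain ⟨v, hv⟩ : ∃ v, s v ≠ s' v := by
    by_contra hc
    push Not at hc
    exact hss' (LinearMap.ext hc).symm
  -- one has value 1, the other one value 0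
  obtain ⟨t, t', ht, ht', h1, h2⟩ : ∃ t t', t ∈ I ∧ t' ∈ I ∧ t v = 1 ∧ t' v = 0 := by
    rcases z01 (s v) with h | h <;> rcases z01 (s' v) with h' | h'
    · exact absurd (h.trans h'.symm) hv
    · exact ⟨s', s, hs'I, hsI, h', h⟩
    · exact ⟨s, s', hsI, hs'I, h, h'⟩
    · exact absurd (h.trans h'.symm) hv
  refine ⟨I.filter (fun f => f v = 1), ?_, ⟨t, Finset.mem_filter.2 ⟨ht, h1⟩⟩, ?_⟩
  · rw [Finset.ssubset_iff_of_subset (Finset.filter_subset _ _)]
    refine ⟨t', ht', fun h => ?_⟩
    have := (Finset.mem_filter.1 h).2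
    rw [h2] at this
    exact absurd this (by decide)
  · have h3 := congrArg (fun ω : Frm V => ω v) hq
    simp only [LinearMap.zero_apply] at h3
    rw [sum_sqf_apply] at h3
    refine Eq.trans ?_ h3
    rw [Finset.sum_filter]
    refine Finset.sum_congr rfl fun f _ => ?_
    rcases z01 (f v) with h | h
    · rw [if_neg (by rw [h]; decide), h, zero_smul]
    · rw [if_pos h, h, one_smul]

/-- dimension of the span of a relation -/
theorem span_rel (I : Finset (Dl V)) (s : Dl V) (hsI : s ∈ I)
    (hs : ∑ s ∈ I, s = 0) : finrank (ZMod 2) (Submodule.span (ZMod 2) (I : Set (Dl V))) + 1 ≤ I.card := by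
  classical
  have h1 : Submodule.span (ZMod 2) (I : Set (Dl V)) =
      Submodule.span (ZMod 2) ((I.erase s : Finset (Dl V)) : Set (Dl V)) := by
    apply le_antisymm
    · rw [Submodule.span_le]
      intro f hf
      by_cases hfs : f = s
      · have h2 : s = ∑ f ∈ I.erase s, f := by
          rw [← Finset.add_sum_erase I (fun f => f) hsI] at hs
          exact add_eq_zero'.1 hs
        have h4 : ∑ f ∈ I.erase s, f ∈
            Submodule.span (ZMod 2) ((I.erase s : Finset (Dl V)) : Set (Dl V)) :=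
          Submodule.sum_mem _ fun g hg => Submodule.subset_span (Finset.mem_coe.2 hg)
        rw [← h2] at h4
        rw [hfs]
        exact h4
      · exact Submodule.subset_span (Finset.mem_coe.2 (Finset.mem_erase.2 ⟨hfs, hf⟩))
    · exact Submodule.span_mono (Finset.coe_subset.2 (Finset.erase_subset _ _))
  rw [h1]
  have h3 := finrank_span_finset_le_card (R := ZMod 2) (I.erase s)
  rw [Finset.card_erase_of_mem hsI] at h3
  have h4 : 0 < I.card := Finset.card_pos.2 ⟨s, hsI⟩
  have h5 : finrank (ZMod 2) (Submodule.span (ZMod 2) ((I.erase s : Finset (Dl V)) : Set (Dl V))) ≤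
      I.card - 1 := h3
  omega

end

theorem t_B1R (hBDIS : S_BDIS) (hBNT : S_BNT) (hOM : S_OM) (hCB1 : S_CB1) : S_B1R := by
  classical
  intro V _ _ _ e A F hCB hF hdim hsp I hI hne hsum
  have hmc := hCB.mc
  have hA : EFam e A := hmc.ef
  -- all blocks are local
  have hloc : ∀ X, Block e A X → LocBlock e A X := by
    intro X hX
    rcases hX with h | h
    · exact absurd h.1 (hCB.nc X)
    · exact h
  obtain ⟨hF1, -, hFsp, hFres, -, -⟩ := hOM V e A F hA (hloc F hF.1)
  -- the hyperplane `F` is an annihilator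
  have hFtop : F ≠ ⊤ := by
    intro h
    rw [h, finrank_top, finrank_Dl] at hdim
    omega
  obtain ⟨b, hb0, hFb⟩ := exists_ann hFtop
  have hFb' : F = ann b := by
    refine Submodule.eq_of_le_of_finrank_eq hFb ?_
    have := finrank_ann hb0
    omega
  -- good blocks
  have hgood : ∀ X ∈ GB e A, ∃ s : Dl V, s e = 1 ∧ s b = 1 ∧ X = Submodule.span (ZMod 2) {s} ∧
      sqf s ∈ A := by
    intro X hX
    have hne : X ≠ F := by
      intro h
      rw [h] at hX
      exact hF.2 hX.2
    have hdis : Disjoint X F := hBDIS V e A X F hmc hX hF.1 hne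
    obtain ⟨h1, -, -, -, h5, h6⟩ := hOM V e A X hA (hloc X hX.1)
    have h7 : finrank (ZMod 2) X + finrank (ZMod 2) F ≤ finrank (ZMod 2) (Dl V) :=
      Submodule.finrank_add_finrank_le_of_disjoint hdis
    rw [finrank_Dl] at h7
    obtain ⟨-, s, hs1, hs2, hs3⟩ := h6 (by omega)
    refine ⟨s, hs1, ?_, hs2, hs3 ▸ h1⟩
    rcases z01 (s b) with h | h
    · exfalso
      have h8 : s ∈ X ⊓ F := by
        refine ⟨hs2 ▸ Submodule.mem_span_singleton_self s, ?_⟩
        rw [hFb']
        exact h
      rw [hdis.eq_bot, Submodule.mem_bot] at h8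
      rw [h8] at hs1
      simp at hs1
    · exact h
  -- `e = b`
  have heb : e = b := by
    have h1 : sSup (GB e A) ≤ ann (e + b) := by
      refine sSup_le fun X hX => ?_
      obtain ⟨s, hs1, hs2, hs3, -⟩ := hgood X hX
      rw [hs3, Submodule.span_singleton_le_iff_mem]
      change s (e + b) = 0
      rw [map_add, hs1, hs2]
      decide
    rw [hsp, top_le_iff] at h1
    by_contra hne
    exact ann_ne_top (fun h => hne (add_eq_zero'.1 h)) h1
  subst heb
  -- the elements of the relations
  have hel : ∀ s : Dl V, s ≠ 0 → Submodule.span (ZMod 2) {s} ∈ GB e A → s e = 1 ∧ sqf s ∈ A := by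
    intro s hs0 hs
    obtain ⟨t, ht1, -, ht3, ht4⟩ := hgood _ hs
    have h1 : s ∈ Submodule.span (ZMod 2) {t} := ht3 ▸ Submodule.mem_span_singleton_self s
    rcases span_one_mem.1 h1 with h | h
    · exact absurd h hs0
    · rw [h]
      exact ⟨ht1, ht4⟩
  -- the sum of the squares of a relation
  have hsq : ∀ J : Finset (Dl V), (∀ s ∈ J, s ≠ 0 ∧ Submodule.span (ZMod 2) {s} ∈ GB e A) →
      ∑ s ∈ J, s = 0 → ∑ s ∈ J, sqf s = 0 ∨ ∑ s ∈ J, sqf s = om e A F := by
    intro J hJ hJs
    refine hFres _ ?_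
    rw [hFb', mem_res_ann hA]
    refine ⟨Submodule.sum_mem _ fun s hs => (hel s (hJ s hs).1 (hJ s hs).2).2, ?_⟩
    rw [sum_sqf_apply, ← hJs]
    refine Finset.sum_congr rfl fun s hs => ?_
    rw [(hel s (hJ s hs).1 (hJ s hs).2).1, one_smul]
  have key : ∀ k : ℕ, ∀ J : Finset (Dl V), J.card = k →
      (∀ s ∈ J, s ≠ 0 ∧ Submodule.span (ZMod 2) {s} ∈ GB e A) → J.Nonempty → ∑ s ∈ J, s = 0 →
      finrank (ZMod 2) V + 1 ≤ J.card := by
    intro k
    induction k using Nat.strong_induction_on with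
    | _ k ih =>
      intro J hJk hJ hJne hJs
      by_contra hcon
      push Not at hcon
      rcases hsq J hJ hJs with h | h
      · obtain ⟨J', hJ'1, hJ'2, hJ'3⟩ := split J hJne (fun s hs => (hJ s hs).1) hJs h
        have h1 : J'.card < J.card := Finset.card_lt_card hJ'1
        have h2 := ih J'.card (hJk ▸ h1) J' rfl (fun s hs => hJ s (hJ'1.1 hs)) hJ'2 hJ'3
        omega
      · obtain ⟨s, hs⟩ := hJne
        have h1 := span_rel J s hs hJs
        have h2 : F ≤ Submodule.span (ZMod 2) (J : Set (Dl V)) := by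
          rw [← hFsp, ← h]
          rintro _ ⟨a, rfl⟩
          rw [sum_sqf_apply]
          exact Submodule.sum_mem _ fun t ht => Submodule.smul_mem _ _ (Submodule.subset_span ht)
        have h3 : F < Submodule.span (ZMod 2) (J : Set (Dl V)) := by
          refine lt_of_le_of_ne h2 fun h4 => ?_
          have h5 : s ∈ F := h4 ▸ Submodule.subset_span (Finset.mem_coe.2 hs)
          rw [hFb'] at h5
          have h6 : s e = 0 := h5
          rw [(hel s (hJ s hs).1 (hJ s hs).2).1] at h6
          exact absurd h6 (by decide)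
        have h7 := Submodule.finrank_lt_finrank_of_lt h3
        omega
  refine ⟨key I.card I rfl hI hne hsum, fun hcard => ?_⟩
  rcases hsq I hI hsum with h | h
  · exfalso
    obtain ⟨J, hJ1, hJ2, hJ3⟩ := split I hne (fun s hs => (hI s hs).1) hsum h
    have h1 : J.card < I.card := Finset.card_lt_card hJ1
    have h2 := key J.card J rfl (fun s hs => hI s (hJ1.1 hs)) hJ2 hJ3
    omega
  · exact h

end Pool.Agent.W816.ELG
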